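import Pool.Agent.Y990.CB.Basic

set_option autoImplicit false

open MeasureTheory Set

/-!
Parts EXPL and OFFS of the project CB (nearest-neighbour percolation on `Z^d`): the clusters of a
finite box are explored through the coordinates touching them, and a path from `0` to `z` used
simultaneously at all places of a box.
-/

namespace Pool.Agent.Y210.CB

open Pool.Agent.Y990.CB
open Pool.Agent.W424.PC (cfgOf)
open Pool.Agent.Y990.PL (Expl)

noncomputable section

variable {d : ℕ}

/-! ### Neighbours -/

/-- The neighbours of a vertex. -/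
def nbs (x : Z d) : Finset (Z d) := by
  classical
  exact (Finset.univ : Finset (Fin d × Bool)).image
    (fun q => Function.update x q.1 (x q.1 + if q.2 then 1 else -1))

lemma card_nbs (x : Z d) : (nbs x).card ≤ 2 * d := by
  classical
  unfold nbs
  refine Finset.card_image_le.trans ?_
  rw [Finset.card_univ, Fintype.card_prod, Fintype.card_fin, Fintype.card_bool, mul_comm]

lemma mem_nbs {x y : Z d} (h : Nb x y) : y ∈ nbs x := by
  classical
  have hne := Nb_ne h
  obtain ⟨i, hi⟩ : ∃ i, x i ≠ y i := by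
    by_contra hcon
    push Not at hcon
    exact hne (funext hcon)
  have h1 : |x i - y i| ≤ 1 := Nb_coord h i
  have h2 : 1 ≤ |x i - y i| := Int.one_le_abs (sub_ne_zero.2 hi)
  have h3 : |x i - y i| = 1 := le_antisymm h1 h2
  have h4 : ∀ j, j ≠ i → y j = x j := by
    intro j hj
    unfold Nb at h
    rw [← Finset.add_sum_erase _ _ (Finset.mem_univ i), h3] at h
    have h5 : ∑ k ∈ Finset.univ.erase i, |x k - y k| = 0 := by linarith
    have h6 := (Finset.sum_eq_zero_iff_of_nonneg (fun k _ => abs_nonneg _)).1 h5 j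
      (Finset.mem_erase.2 ⟨hj, Finset.mem_univ j⟩)
    have h7 := abs_eq_zero.1 h6
    linarith
  unfold nbs
  rw [Finset.mem_image]
  rcases (abs_eq (zero_le_one' ℤ)).1 h3 with h5 | h5
  · refine ⟨(i, false), Finset.mem_univ _, ?_⟩
    funext j
    by_cases hj : j = i
    · subst hj
      simp only [Function.update_self]
      simp only [Bool.false_eq_true, if_false]
      linarith
    · rw [Function.update_of_ne hj, h4 j hj]
  · refine ⟨(i, true), Finset.mem_univ _, ?_⟩
    funext j
    by_cases hj : j = i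
    · subst hj
      simp only [Function.update_self, if_true]
      linarith
    · rw [Function.update_of_ne hj, h4 j hj]

lemma cfgOf_true {ι : Type} {T : Finset ι} {i : ι} : cfgOf T i = true ↔ i ∈ T := by
  classical
  unfold cfgOf
  simp

/-! ### The exploration -/

theorem expl : S_expl := by
  classical
  intro d M p B u S hu hS
  refine ⟨?_, ?_, ?_, ?_⟩
  · intro A A' hA
    exact cl_mono (fun c hc => cfgOf_true.2 (hA (cfgOf_true.1 hc))) (Subset.refl _) u
  · rintro c X Y hXY ⟨x, hx, y, h1, h2⟩
    exact ⟨x, hXY hx, y, h1, h2⟩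
  · intro A A' hA hA'S hstop
    apply Set.Subset.antisymm
    · intro y hy
      have hy' : (G M (cfgOf A') (B : Set (Z d))).Reachable u y := hy
      rw [SimpleGraph.reachable_iff_reflTransGen] at hy'
      clear hy
      induction hy' with
      | refl => exact SimpleGraph.Reachable.refl u
      | tail _ hab ih =>
        rename_i a b _
        obtain ⟨h1, h2, h3, h4⟩ := hab
        have hadj : (G M (cfgOf A) (B : Set (Z d))).Adj a b := by
          refine ⟨h1, h2, h3, fun c hc => ?_⟩
          by_contra hcA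
          have hcA' : c ∉ A := fun h => hcA (cfgOf_true.2 h)
          exact hstop c (cfgOf_true.1 (h4 c hc)) hcA' ⟨a, ih, b, h1, hc⟩
        exact SimpleGraph.Reachable.trans ih hadj.reachable
    · exact cl_mono (fun c hc => cfgOf_true.2 (hA (cfgOf_true.1 hc))) (Subset.refl _) u
  · intro A hAS hfin R hRS ht
    set X := hfin.toFinset with hX
    have h1 : R ⊆ X.biUnion (fun x => (nbs x).biUnion (fun y => M.nd x y)) := by
      intro c hc
      obtain ⟨x, hx, y, hxy, hcn⟩ := ht c hc
      rw [Finset.mem_biUnion]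
      refine ⟨x, hfin.mem_toFinset.2 hx, ?_⟩
      rw [Finset.mem_biUnion]
      exact ⟨y, mem_nbs hxy, hcn⟩
    have h2 : R.card ≤ X.card * (4 * d) := by
      refine (Finset.card_le_card h1).trans ?_
      refine Finset.card_biUnion_le_card_mul _ _ _ fun x _ => ?_
      refine (Finset.card_biUnion_le_card_mul _ _ 2 fun y _ => M.card x y).trans ?_
      have := card_nbs x
      omega
    have h3 : ∑ c ∈ R, (p : ℝ) ≤ R.card := by
      rw [Finset.sum_const, nsmul_eq_mul]
      exact mul_le_of_le_one_right (Nat.cast_nonneg _) p.2.2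
    have h4 : (cl M (cfgOf A) (B : Set (Z d)) u).ncard = X.card :=
      Set.ncard_eq_toFinset_card _ hfin
    show ∑ c ∈ R, (p : ℝ) ≤ 4 * (d : ℝ) * ((cl M (cfgOf A) (B : Set (Z d)) u).ncard : ℝ)
    rw [h4]
    refine h3.trans ?_
    have h5 : (R.card : ℝ) ≤ ((X.card * (4 * d) : ℕ) : ℝ) := by exact_mod_cast h2
    refine h5.trans (le_of_eq ?_)
    push_cast
    ring

/-! ### The shifted path -/

/-- One step towards `z`. -/
lemma exists_step (a z : Z d) (h : a ≠ z) : ∃ a' : Z d, Nb a a' ∧
    (∀ i, (a i ≤ a' i ∧ a' i ≤ z i) ∨ (z i ≤ a' i ∧ a' i ≤ a i)) ∧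
    ∑ i, (z i - a' i).natAbs + 1 = ∑ i, (z i - a i).natAbs := by
  classical
  obtain ⟨i, hi⟩ : ∃ i, a i ≠ z i := by
    by_contra hcon
    push Not at hcon
    exact h (funext hcon)
  obtain ⟨s, hs1, hs2⟩ : ∃ s : ℤ, |s| = 1 ∧
      ((a i ≤ a i + s ∧ a i + s ≤ z i) ∨ (z i ≤ a i + s ∧ a i + s ≤ a i)) := by
    rcases lt_or_gt_of_ne hi with h1 | h1
    · exact ⟨1, abs_one, Or.inl ⟨by omega, by omega⟩⟩
    · exact ⟨-1, by simp, Or.inr ⟨by omega, by omega⟩⟩
  refine ⟨Function.update a i (a i + s), ?_, ?_, ?_⟩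
  · unfold Nb
    rw [← Finset.add_sum_erase _ _ (Finset.mem_univ i)]
    have h1 : ∑ j ∈ Finset.univ.erase i, |a j - Function.update a i (a i + s) j| = 0 := by
      refine Finset.sum_eq_zero fun j hj => ?_
      rw [Function.update_of_ne (Finset.ne_of_mem_erase hj), sub_self, abs_zero]
    rw [h1, Function.update_self, add_zero]
    have : a i - (a i + s) = -s := by ring
    rw [this, abs_neg, hs1]
  · intro j
    by_cases hj : j = i
    · subst hj
      rw [Function.update_self]
      exact hs2
    · rw [Function.update_of_ne hj]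
      rcases le_total (a j) (z j) with h1 | h1
      · exact Or.inl ⟨le_rfl, h1⟩
      · exact Or.inr ⟨h1, le_rfl⟩
  · rw [← Finset.add_sum_erase _ _ (Finset.mem_univ i),
      ← Finset.add_sum_erase _ (fun j => (z j - a j).natAbs) (Finset.mem_univ i)]
    have h1 : ∑ j ∈ Finset.univ.erase i, (z j - Function.update a i (a i + s) j).natAbs =
        ∑ j ∈ Finset.univ.erase i, (z j - a j).natAbs := by
      refine Finset.sum_congr rfl fun j hj => ?_
      rw [Function.update_of_ne (Finset.ne_of_mem_erase hj)]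
    rw [h1, Function.update_self]
    rcases (abs_eq (zero_le_one' ℤ)).1 hs1 with rfl | rfl <;> omega

lemma Bo_between {w x a a' z : Z d} {L : ℕ} (ha : a + x ∈ Bo w L) (hz : z + x ∈ Bo w L)
    (h : ∀ i, (a i ≤ a' i ∧ a' i ≤ z i) ∨ (z i ≤ a' i ∧ a' i ≤ a i)) : a' + x ∈ Bo w L := by
  intro i
  have h1 := abs_le.1 (ha i)
  have h2 := abs_le.1 (hz i)
  simp only [Pi.add_apply] at h1 h2 ⊢
  rw [abs_le]
  rcases h i with h3 | h3
  · constructor <;> linarith [h1.1, h1.2, h2.1, h2.2, h3.1, h3.2]
  · constructor <;> linarith [h1.1, h1.2, h2.1, h2.2, h3.1, h3.2]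

lemma exists_path (M : Mod d) (z : Z d) (n : ℕ) : ∀ a : Z d, ∑ i, (z i - a i).natAbs = n →
    ∃ P : Finset M.ι, P.card ≤ 2 * n ∧
    (∀ (w : Z d) (L : ℕ) (x : Z d), a + x ∈ Bo w L → z + x ∈ Bo w L →
      (∀ c ∈ P, M.tr (sf x) c ∈ In M (Bo w L)) ∧
      ∀ ω : M.ι → Bool, (∀ c ∈ P, ω (M.tr (sf x) c) = true) →
        (G M ω (Bo w L)).Reachable (a + x) (z + x)) ∧
    ∀ c ∈ P, ∃ b b' : Z d, c ∈ M.nd b b' := by
  classical
  induction n with
  | zero =>
    intro a ha
    have haz : a = z := by
      funext i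
      have := (Finset.sum_eq_zero_iff_of_nonneg (fun k _ => Nat.zero_le _)).1 ha i
        (Finset.mem_univ i)
      omega
    subst haz
    refine ⟨∅, by simp, fun w L x _ _ => ⟨by simp, fun ω _ => SimpleGraph.Reachable.refl _⟩,
      by simp⟩
  | succ n ih =>
    intro a ha
    have haz : a ≠ z := by
      rintro rfl
      simp at ha
    obtain ⟨a', h1, h2, h3⟩ := exists_step a z haz
    obtain ⟨P, hP1, hP2, hP3⟩ := ih a' (by omega)
    refine ⟨M.nd a a' ∪ P, ?_, ?_, ?_⟩
    · have e1 := Finset.card_union_le (M.nd a a') P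
      have e2 := M.card a a'
      omega
    · intro w L x hx hz
      have ha' := Bo_between hx hz h2
      obtain ⟨i1, i2⟩ := hP2 w L x ha' hz
      constructor
      · intro c hc
        rcases Finset.mem_union.1 hc with hc | hc
        · exact ⟨a + x, hx, a' + x, ha', Nb_add.2 h1, (M.nd_tr (sf x) a a' c).2 hc⟩
        · exact i1 c hc
      · intro ω hω
        have hadj : (G M ω (Bo w L)).Adj (a + x) (a' + x) := by
          refine ⟨Nb_add.2 h1, hx, ha', fun c' hc' => ?_⟩
          have h5 : (M.tr (sf x)).symm c' ∈ M.nd a a' := by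
            rw [← M.nd_tr (sf x), Equiv.apply_symm_apply]
            exact hc'
          have h6 := hω _ (Finset.mem_union_left _ h5)
          rwa [Equiv.apply_symm_apply] at h6
        exact hadj.reachable.trans (i2 ω fun c hc => hω c (Finset.mem_union_right _ hc))
    · intro c hc
      rcases Finset.mem_union.1 hc with hc | hc
      · exact ⟨a, a', hc⟩
      · exact hP3 c hc

lemma encard_tr (M : Mod d) (b b' : Z d) (c c' : M.ι) (h : c ∈ M.nd b b') :
    {x : Z d | M.tr (sf x) c = c'}.encard ≤ 3 := by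
  classical
  by_cases hne : ∃ x0 : Z d, M.tr (sf x0) c = c'
  · obtain ⟨x0, hx0⟩ := hne
    have hsub : {x : Z d | M.tr (sf x) c = c'} ⊆
        (({x0, b' - b + x0, b - b' + x0} : Finset (Z d)) : Set (Z d)) := by
      intro x hx
      have hx' : M.tr (sf x) c = c' := hx
      have e1 : c' ∈ M.nd (b + x0) (b' + x0) := by
        rw [← hx0]
        exact (M.nd_tr (sf x0) b b' c).2 h
      have e2 : c' ∈ M.nd (b + x) (b' + x) := by
        rw [← hx']
        exact (M.nd_tr (sf x) b b' c).2 h
      rw [Finset.mem_coe, Finset.mem_insert, Finset.mem_insert, Finset.mem_singleton]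
      rcases M.loc _ _ _ _ c' e1 e2 with h1 | h1 | h1 | h1
      · exact Or.inl (add_left_cancel h1)
      · refine Or.inr (Or.inl ?_)
        rw [sub_add_eq_add_sub, ← h1, add_sub_cancel_left]
      · refine Or.inr (Or.inr ?_)
        rw [sub_add_eq_add_sub, ← h1, add_sub_cancel_left]
      · exact Or.inl (add_left_cancel h1)
    refine (Set.encard_le_encard hsub).trans ?_
    rw [Set.encard_coe_eq_coe_finsetCard]
    exact_mod_cast Finset.card_le_three
  · have : {x : Z d | M.tr (sf x) c = c'} = ∅ := by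
      ext x
      simp only [mem_ofPred_eq, mem_empty_iff_false, iff_false]
      exact fun hx => hne ⟨x, hx⟩
    rw [this, Set.encard_empty]
    exact zero_le

theorem offs : S_offs := by
  intro d M z
  obtain ⟨P, hP1, hP2, hP3⟩ := exists_path M z _ (0 : Z d) rfl
  refine ⟨P, ?_, ?_, ?_⟩
  · refine hP1.trans (Nat.mul_le_mul_left 2 ?_)
    have h1 : ∀ i ∈ (Finset.univ : Finset (Fin d)), (z i - (0 : Z d) i).natAbs ≤ nm z := by
      intro i _
      have h2 := abs_le_nm z i
      simp only [Pi.zero_apply, sub_zero]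
      rw [← Int.natCast_natAbs] at h2
      exact_mod_cast h2
    have h3 := Finset.sum_le_card_nsmul _ _ _ h1
    rwa [Finset.card_univ, Fintype.card_fin, smul_eq_mul] at h3
  · intro w L x hx hz
    have := hP2 w L x (by rwa [zero_add]) hz
    rwa [zero_add] at this
  · intro c hc c'
    obtain ⟨b, b', hb⟩ := hP3 c hc
    exact encard_tr M b b' c c' hb

end

end Pool.Agent.Y210.CB
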